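import Mathlib
import Pool.Agent.Lib.MP_a3b629_pr.Defs
import Pool.Agent.Lib.MP_a3b629_pr.Formula

set_option autoImplicit false

open Filter Topology MeasureTheory ProbabilityTheory
open Pool.Agent.Lib.MP_a3b629_pr

namespace Pool.Agent.Results.MP_a3b629_pr.LimitValue

/-- For `N` independent simple random walks on `ℤ^d`, `d > 2 N`, with steps `X i n`, the
probability that the translate by `z` of the Minkowski sum of their ranges meets `A`, divided by
the `N`-fold convolution of the Green function at `z`, converges to a positive limit as the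
Euclidean norm of `z` tends to infinity, and the limit is the sum over `a ∈ A` of the probability
that `a` plus the sum of `N` independent two-sided walks avoids `A` at all lexicographically
negative time tuples. -/
theorem result {Ω : Type*} [MeasurableSpace Ω] (P : Measure Ω) [IsProbabilityMeasure P]
    (N d : ℕ) (hN : 1 ≤ N) (hd : 2 * N < d) (X : Fin N → ℕ → Ω → (Fin d → ℤ))
    (hmeas : ∀ i n, Measurable (X i n))
    (hind : iIndepFun (fun p : Fin N × ℕ => X p.1 p.2) P)
    (hlaw : ∀ i n, P.map (X i n) = stepLaw d)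
    (A : Finset (Fin d → ℤ)) (hA : A.Nonempty) :
    ∃ L : ℝ, 0 < L ∧ Tendsto
      (fun z : Fin d → ℤ =>
        P.real {ω | ∃ x : Fin N → (Fin d → ℤ),
          (∀ i, x i ∈ Set.range fun n : ℕ => ∑ j ∈ Finset.range n, X i j ω) ∧
            z + ∑ i, x i ∈ A} / greenConv d N z)
      (comap (fun z : Fin d → ℤ => Real.sqrt (∑ j, (z j : ℝ) ^ 2)) atTop) (𝓝 L) ∧
      ∀ (Ω' : Type) [MeasurableSpace Ω'] (P' : Measure Ω') [IsProbabilityMeasure P']
        (Y : Fin N → ℤ → Ω' → (Fin d → ℤ)), (∀ i n, Measurable (Y i n)) →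
        iIndepFun (fun p : Fin N × ℤ => Y p.1 p.2) P' → (∀ i n, P'.map (Y i n) = stepLaw d) →
        L = ∑ a ∈ A, P'.real {ω | ∀ t : Fin N → ℤ, toLex t < toLex 0 →
          a + ∑ i, walk2 (fun j => Y i j ω) (t i) ∉ A} := by
  obtain ⟨k, rfl⟩ : ∃ k, N = k + 1 := ⟨N - 1, by omega⟩
  have hX : Steps P (fun p : Fin (k + 1) × ℕ => X p.1 p.2) :=
    ⟨fun p => hmeas _ _, hind, fun p => hlaw _ _⟩
  obtain ⟨L, hL, hlim⟩ := hX.main hd hA
  refine ⟨L, hL, ?_, fun Ω' _ P' _ Y h1 h2 h3 =>
    hX.formula hd hlim (Y := fun p : Fin (k + 1) × ℤ => Y p.1 p.2)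
      ⟨fun p => h1 _ _, h2, fun p => h3 _ _⟩⟩
  have hle : comap (fun z : Fin d → ℤ => Real.sqrt (∑ j, (z j : ℝ) ^ 2)) atTop ≤ cofinite := by
    rw [le_cofinite_iff_eventually_ne]
    intro y
    have := (tendsto_comap (f := fun z : Fin d → ℤ => Real.sqrt (∑ j, (z j : ℝ) ^ 2))
      (x := atTop)).eventually_gt_atTop (Real.sqrt (∑ j, (y j : ℝ) ^ 2))
    filter_upwards [this] with z hz
    rintro rfl
    exact lt_irrefl _ hz
  refine (hlim.mono_left hle).congr fun z => ?_
  rw [greenConv_eq _ hd, gI_fin_succ, Measure.real, gR]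
  congr 3
  ext ω
  simp only [Set.mem_iUnion, Hn, pos, Set.mem_ofPred_eq, Set.mem_range]
  constructor
  · rintro ⟨n, hn⟩
    exact ⟨_, fun i => ⟨n i, rfl⟩, hn⟩
  · rintro ⟨x, hx, h⟩
    choose n hn using hx
    refine ⟨n, ?_⟩
    simp only [hn]
    exact h

end Pool.Agent.Results.MP_a3b629_pr.LimitValue
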